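import Pool.Agent.H303.NY.Fin

/-!
# The length of the nodal sets of eigenfunctions on closed smooth surfaces (Yau's conjecture)

Let `M` be a closed connected surface with a smooth Riemannian metric. We prove for all eigenfunctions
`f`, `Δ_g f + lam f = 0`, `lam > 0`, `f ≢ 0`, with nodal set `Z = {f = 0}`:

* **Yau's bounds**: `c √lam ≤ length Z ≤ A √lam`;
* **tubular neighbourhoods**: `c δ √lam ≤ area {dist (·, Z) < δ} ≤ A δ √lam` for `0 < δ ≤ 1 / √lam`;
* **distribution of the length at the scale of the wavelength**: for families of discs `B_i` of radius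
  `C / √lam` of bounded multiplicity, with a number comparable with `lam`, the means of
  `(√lam length (Z ∩ B_i)) ^ p` are bounded if `p < 2`, and at most `A (1 + lam) ^ (p / 2 - 1 + ε)` if
  `p ≥ 2`; these exponents are sharp on the round sphere.

The constants depend only on `M` and, in the last item, on `C`, `p`, `ε` and the bounds for the family.
The surfaces are Riemannian manifolds of dimension two in the sense of Mathlib, or surfaces given by
isothermal charts with a metric `ρ |dz|²` with `ρ` of class `C¹` only.

The problem asks whether the averages of the doubling indices `N (B_i)` are bounded; this is equivalent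
to Yau's upper bound (Nazarov, Polterovich, Sodin) and settled in the library
(`R_pool_sql_team_seeded_3997aac3/Results/MP_c7f82c_an/BoundedAverage.lean`). Here the nodal bound itself
is proved. The passage from the growth of a solution in a small disc to the length of its nodal set is
new: for a solution of `Δu + V u = 0` with `|V|, |∇V| ≤ 1` put `q = |∇u|² + u²`. In dimension two
`Δ log (q + ε) ≥ -12` (`Pool.Agent.H303.NY.T1`), hence `∫ |∇ log (q + ε)| ≤ C (1 + N)`, `N` the growth
exponent, and the integration of `F (u / √(q + ε)) div (χ ∇u / √(q + ε))`, `F (s) = 2 arctan (s / t)`,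
gives `area {|u| < t √(q + ε)} ≤ C t (1 + N)` (in the region where `|∇u|² ≥ q / 2`), thus the length is at
most `C (1 + N)`. The sums over the discs are bounded by the theorem on the power means of the doubling
indices (`Pool.Agent.H303.NP`, `Results/MP_c7f82c_an/SharpMoments.lean`), which goes back to the library
theorem. The proof was formalised by helpers 303, 181, 662, 740, 738, 236, 253, 215, 643, 997, 294, 415,
969, 922, 549, 154, 261, 972, 282, 289, 127, 729, 21, 975, 199 and 349.
-/

set_option autoImplicit false
open MeasureTheory Filter Topology Complex Bundle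
open scoped ContDiff Manifold

namespace Pool.Agent.Results.MP_c7f82c_an.NodalLength

open Pool.Agent.H303.NP Pool.Agent.H303.NP.Pub Pool.Agent.H303.NY Pool.Agent.H303.NY.Pub

universe u v

/-- **Yau's conjecture for closed smooth surfaces**, with the areas of the tubular neighbourhoods and the
power means of the local lengths. -/
theorem result :
    -- (1) smooth Riemannian surfaces in the sense of Mathlib
    (∀ (E : Type v) [NormedAddCommGroup E] [NormedSpace ℝ E] (b : Module.Basis (Fin 2) ℝ E)
      (M : Type u) [MetricSpace M] [ChartedSpace E M] [IsManifold 𝓘(ℝ, E) ∞ M]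
      [RiemannianBundle (fun x : M => TangentSpace 𝓘(ℝ, E) x)]
      [IsContMDiffRiemannianBundle 𝓘(ℝ, E) ∞ E (fun x : M => TangentSpace 𝓘(ℝ, E) x)]
      [IsRiemannianManifold 𝓘(ℝ, E) M] [CompactSpace M] [ConnectedSpace M]
      [MeasurableSpace M] [BorelSpace M],
      YauBounds (M := M) (IsEigenfunctionOn b) ∧ TubeBounds (M := M) (IsEigenfunctionOn b) ∧
        LengthMeanBounds (M := M) (IsEigenfunctionOn b)) ∧
    -- (2) surfaces given by isothermal charts, with a metric of class `C¹`
    (∀ (M : Type u) (ι : Type v) [MetricSpace M] [CompactSpace M] [ConnectedSpace M]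
      [MeasurableSpace M] [BorelSpace M]
      (U : ι → Set ℂ) (φ : ι → ℂ → M) (ρ : ι → ℂ → ℝ), RiemannianSurface U φ ρ →
      YauBounds (IsEigenfunction U φ ρ) ∧ TubeBounds (IsEigenfunction U φ ρ) ∧
        LengthMeanBounds (IsEigenfunction U φ ρ)) ∧
    -- (3) sharpness of the power means on the round sphere
    SphereLengthSharp :=
  ⟨fun E _ _ b M _ _ _ _ _ _ _ _ _ _ => manifold_all g_yu g_ylo g_mku g_mkl
      (fun _ h1 h2 => g_z5 h1 h2) E b M,
    fun M ι _ _ _ _ _ U φ ρ h => isothermal_all g_yu g_ylo g_mku g_mkl
      (fun _ h1 h2 => g_z5 h1 h2) M ι U φ ρ h,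
    sphere_length tw5 g_yu tw2 tw3 tw4⟩

end Pool.Agent.Results.MP_c7f82c_an.NodalLength
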