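import Pool.Agent.H303.NP.Fin
import Pool.Agent.H303.NP.W1
import Pool.Agent.H303.NP.W2
import Pool.Agent.H303.NP.W3
import Pool.Agent.H303.NP.W4

/-!
# The moments of the doubling index of eigenfunctions on closed surfaces: sharp exponents

Let `M` be a closed connected surface with a smooth Riemannian metric, `f` an eigenfunction with
eigenvalue `lam > 0`, and consider an admissible covering of `M` by discs `B_i` of radius `C / √lam`
centred at zeros of `f`. The library settles the question of Nazarov, Polterovich and Sodin for the
arithmetic mean: the averages of the doubling indices `N(B_i)` are bounded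
(`R_pool_sql_team_seeded_3997aac3/Results/MP_c7f82c_an/BoundedAverage.lean`).

Here we determine which power means are bounded.

* For every `p < 2` the means of `N(B_i) ^ p` are bounded, for all eigenfunctions and all admissible
  coverings, on every surface (for `p = 1` this is the library theorem).
* For `p ≥ 2` they are at most `A (1 + lam) ^ (p / 2 - 1 + ε)`, for every `ε > 0`.
* The exponents are sharp: on the round sphere the eigenfunctions `Re (x₀ + i x₁) ^ l`, with eigenvalue
  `lam = l (l + 1)`, have admissible coverings, and for all of them the mean of the squares is at least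
  `c log lam` and the mean of the `p`-th powers is at least `c lam ^ (p / 2 - 1)`, `p ≥ 2`.

The surfaces are Riemannian manifolds of dimension two in the sense of Mathlib, or surfaces given by
isothermal charts with a metric `ρ |dz|²` with `ρ` of class `C¹` only.

The proof follows the stopping time argument of the library theorem, with the sum of the growth
exponents of the small squares of a family replaced by the sum of their powers with an exponent
`α ∈ [1, 2)`; the key point is that the potential of a measure of mass `m` has oscillations on
separated balls whose `α`-th powers have a sum of the order `m ^ α`, for `α < 2`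
(`Pool.Agent.H303.NP.T1`, `T2`); for `α = 2` this is false by a logarithm. The theorem was formalised by
helpers 303, 307, 349, 860, 784, 967, 127, 331, 168, 284 and 376.
-/

set_option autoImplicit false
open MeasureTheory Filter Topology Complex Bundle
open scoped ContDiff Manifold

namespace Pool.Agent.Results.MP_c7f82c_an.SharpMoments

open Pool.Agent.H303.NP Pool.Agent.H303.NP.Pub

universe u v

/-- **Sharp exponents for the power means of the doubling indices.** -/
theorem result :
    -- (1) smooth Riemannian surfaces in the sense of Mathlib
    (∀ (E : Type v) [NormedAddCommGroup E] [NormedSpace ℝ E] (b : Module.Basis (Fin 2) ℝ E)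
      (M : Type u) [MetricSpace M] [ChartedSpace E M] [IsManifold 𝓘(ℝ, E) ∞ M]
      [RiemannianBundle (fun x : M => TangentSpace 𝓘(ℝ, E) x)]
      [IsContMDiffRiemannianBundle 𝓘(ℝ, E) ∞ E (fun x : M => TangentSpace 𝓘(ℝ, E) x)]
      [IsRiemannianManifold 𝓘(ℝ, E) M] [CompactSpace M] [ConnectedSpace M],
      PowerMeanBounds (M := M) (IsEigenfunctionOn b)) ∧
    -- (2) surfaces given by isothermal charts, with a metric of class `C¹`
    (∀ (M : Type u) (ι : Type v) [MetricSpace M] [CompactSpace M] [ConnectedSpace M]
      (U : ι → Set ℂ) (φ : ι → ℂ → M) (ρ : ι → ℂ → ℝ), RiemannianSurface U φ ρ →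
      PowerMeanBounds (IsEigenfunction U φ ρ)) ∧
    -- (3) sharpness on the round sphere
    SphereSharp :=
  ⟨fun E _ _ b M _ _ _ _ _ _ _ _ => manifold_bounds (fun _ h1 h2 => f_z5 h1 h2) E b M,
    fun M ι _ _ _ U φ ρ h => isothermal_bounds (fun _ h1 h2 => f_z5 h1 h2) M ι U φ ρ h,
    sphere_sharp tw1 tw2 tw3 tw4⟩

end Pool.Agent.Results.MP_c7f82c_an.SharpMoments
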